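import Pool.Agent.H66.WS.Cons

/-!
# Graph products of groups whose finitely generated subgroups have weakly sofic quotients

`CommutatorWeaklySofic` is weak soficity through metrics with `d(ab, ba) ≤ f(|S|) ∑_{s ∈ S} d(s, 1)`
for all `a, b` in the subgroup generated by a finite set `S`, where `f` does not depend on the finite
group.
-/

namespace Pool.Agent.Results.MP_f2b0dc_al.LocalCriterion

open Pool.Agent.Helper202WS Pool.Agent.H66.WS

universe u

/-- Let `X` be a simple graph on an arbitrary vertex set. Suppose that every nontrivial finitely
generated subgroup of every vertex group has a nontrivial homomorphism to a group which is sofic or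
weakly sofic through metrics satisfying the commutator inequality (so the vertex groups may be
sofic, locally indicable, iterated extensions of such groups, ...). Then the graph product is weakly
sofic, again through such metrics. -/
theorem result {V : Type u} (X : SimpleGraph V) (Γ : V → Type u) [∀ v, Group (Γ v)]
    (h : ∀ (v : V) (P : Subgroup (Γ v)), P.FG → P ≠ ⊥ →
      ∃ (K : Type u) (_ : Group K), (Sofic K ∨ CommutatorWeaklySofic K) ∧ ∃ f : P →* K, f ≠ 1) :
    WeaklySofic (GraphProduct X Γ) ∧ CommutatorWeaklySofic (GraphProduct X Γ) := by
  have key : ∀ v, SubgroupWeaklySofic (Γ v) := by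
    intro v
    apply sws_of_local
    intro P h1 h2
    obtain ⟨K, iK, hK, f, hf⟩ := h v P h1 h2
    obtain ⟨x, hx⟩ := DFunLike.ne_iff.1 hf
    exact ⟨K, iK, hK.elim sws_of_sofic CommutatorWeaklySofic.sws, f, x, hx⟩
  have h : SubgroupWeaklySofic (GraphProduct X Γ) := graphProduct_sws X Γ key
  exact ⟨h.weaklySofic, h.cws⟩

end Pool.Agent.Results.MP_f2b0dc_al.LocalCriterion
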